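import Mathlib
import Pool.Agent.Lib.MP_fd6ff4_co.Defs

/-!
# Topological triangulations of a simplex which are vertex-induced

`Γ` is a finite abstract simplicial complex with the vertex set `Fin n`, `σ j` is the carrier of the
vertex `j`, a subset of the vertex set `Fin d` of the simplex, and the carrier of a face is the
union `car σ F` of the carriers of its vertices. `sub σ Γ U` is the subcomplex `Γ_U` of the faces
with carrier inside `U`, `geom Γ` is the geometric realization of `Γ`.
-/

set_option autoImplicit false

open Finset

namespace Pool.Agent.Lib.MP_fd6ff4_co.R43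

variable {d n : ℕ}

/-- the support of a point of the geometric realization: the smallest face containing it -/
noncomputable def spt (x : Fin n → ℝ) : Finset (Fin n) := univ.filter fun j => x j ≠ 0

/-- the geometric realization of `Γ`: the convex combinations of the vertices whose support is a
face -/
def geom (Γ : Finset (Finset (Fin n))) : Set (Fin n → ℝ) :=
  {x | (∀ j, 0 ≤ x j) ∧ ∑ j, x j = 1 ∧ spt x ∈ Γ}

/-- the subcomplex `Γ_U` of the faces with carrier inside `U` -/
def sub (σ : Fin n → Finset (Fin d)) (Γ : Finset (Finset (Fin n))) (U : Finset (Fin d)) :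
    Finset (Finset (Fin n)) :=
  Γ.filter fun F => car σ F ⊆ U

/-- `Γ` with the carriers `car σ F` is a (vertex-induced) topological triangulation of the simplex
with the vertex set `Fin d`: for every `U` the geometric realization of `Γ_U` is homeomorphic to the
closed ball of dimension `#U - 1`, and the faces with carrier `U` are exactly the faces which are
not in the boundary sphere. (For `U = ∅` the subcomplex has only the empty face, as all the vertices
have a nonempty carrier.) -/
structure TopTri (Γ : Finset (Finset (Fin n))) (σ : Fin n → Finset (Fin d)) : Prop where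
  empty_mem : ∅ ∈ Γ
  down : ∀ F ∈ Γ, ∀ G, G ⊆ F → G ∈ Γ
  vertex : ∀ j, {j} ∈ Γ
  nonempty : ∀ j, (σ j).Nonempty
  ball : ∀ U : Finset (Fin d), U.Nonempty →
    ∃ h : geom (sub σ Γ U) ≃ₜ Metric.closedBall (0 : EuclideanSpace ℝ (Fin (#U - 1))) 1,
      ∀ x, ‖(h x : EuclideanSpace ℝ (Fin (#U - 1)))‖ < 1 ↔ car σ (spt (x : Fin n → ℝ)) = U

/-- the field `K = k(a_{i,j} : i ∈ σ(j))` -/
abbrev GenField (k : Type*) [Field k] (σ : Fin n → Finset (Fin d)) : Type _ :=
  FractionRing (MvPolynomial (Idx σ) k)

/-- the coefficients `a_{i,j}` of the generic linear forms: the indeterminates for `i ∈ σ(j)`, and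
`0` otherwise -/
noncomputable def genA (k : Type*) [Field k] (σ : Fin n → Finset (Fin d)) (i : Fin d) (j : Fin n) :
    GenField k σ :=
  if h : i ∈ σ j then algebraMap (MvPolynomial (Idx σ) k) _ (MvPolynomial.X ⟨(i, j), h⟩) else 0

end Pool.Agent.Lib.MP_fd6ff4_co.R43
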