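import Mathlib
import Pool.Agent.Lib.MP_fd6ff4_co.R43.Statement

/-!
# The rainbow complex `R43`

The letters of the colour `i : Fin 4` are `0, 1, 2 : Fin 3` (`a_i, b_i, c_i`). The facets are the 43
words in `words`. The simplex has the vertex set `Fin 7`: `0, 1, 2` are the fibre directions (`V''`),
and `3, 4, 5, 6` are the colours (`V'`, the colour `i` is `bas i`).
-/

set_option autoImplicit false

open Finset

namespace Pool.Agent.Lib.MP_fd6ff4_co.R43

/-- the 43 facets: the words with exactly one letter `2`, and the words in `0, 1` with one, two or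
four letters `1` -/
def words : Finset (Fin 4 → Fin 3) :=
  univ.filter fun w => #{i | w i = 2} = 1 ∨
    (#{i | w i = 2} = 0 ∧ (#{i | w i = 1} = 1 ∨ #{i | w i = 1} = 2 ∨ #{i | w i = 1} = 4))

/-- the coefficients of the cycle: `(-1)^b` for the words with a letter `2` and
`(-1)^(b+1) (3 - b)` for the others, `b` the number of letters `1`; the sum over the words with
three given letters is divisible by 3 -/
def cyc (w : Fin 4 → Fin 3) : ℤ :=
  if w ∈ words then
    if #{i | w i = 2} = 1 then (-1) ^ #{i | w i = 1}
    else (-1) ^ (#{i | w i = 1} + 1) * (3 - (#{i | w i = 1} : ℤ))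
  else 0

/-- the vertex of the 6-simplex which belongs to the colour `i` -/
def bas (i : Fin 4) : Fin 7 := ⟨i.1 + 3, by omega⟩

/-- the fibre directions -/
def fib : Finset (Fin 7) := {0, 1, 2}

/-- `Γ` contains the rainbow complex: `v i l` is the vertex of `Γ` for the letter `l` of the colour
`i`, its carrier is `V'' + i`, and the words in `words` are faces of `Γ` -/
structure HasR43 {n : ℕ} (Γ : Finset (Finset (Fin n))) (σ : Fin n → Finset (Fin 7))
    (v : Fin 4 → Fin 3 → Fin n) : Prop where
  inj : ∀ i l i' l', v i l = v i' l' → i = i' ∧ l = l'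
  car : ∀ i l, σ (v i l) = insert (bas i) fib
  face : ∀ w ∈ words, (univ.image fun i => v i (w i)) ∈ Γ

theorem card_words : words.card = 43 := by decide

theorem cyc_sum (i : Fin 4) (w : Fin 4 → Fin 3) :
    (3 : ℤ) ∣ ∑ l : Fin 3, cyc (Function.update w i l) := by
  revert i w
  decide

theorem cyc_ne : ∀ w ∈ words, ¬ (3 : ℤ) ∣ cyc w := by decide

end Pool.Agent.Lib.MP_fd6ff4_co.R43
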