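import Pool.Agent.Lib.MP_fd6ff4_co.R43.FanCore

/-!
# The fan lemma

`ι` is finite, `C = {x : ι → ℝ | 0 ≤ x}` is the nonnegative orthant and `L` a finite set of linear
functionals. There is a simplicial fan on `C` which is compatible with `L`: finitely many points
`P v` of the standard simplex and a finite abstract simplicial complex `K` on their indices such
that every `x` in `C` is in a unique way a combination `∑ ν v • P v` with nonnegative coefficients
and support in `K`, and such that no functional of `L` has opposite signs at two vertices of a face.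
-/

set_option autoImplicit false

open Finset

namespace Pool.Agent.Lib.MP_fd6ff4_co.R43

variable {ι : Type*} [Fintype ι] [DecidableEq ι]

/-- a simplicial fan on the nonnegative orthant which is compatible with the functionals in `L` -/
structure Fan (L : Set ((ι → ℝ) →ₗ[ℝ] ℝ)) where
  /-- the number of vertices -/
  n : ℕ
  /-- the vertices -/
  P : Fin n → ι → ℝ
  /-- the complex -/
  K : Finset (Finset (Fin n))
  P_mem : ∀ v, P v ∈ stdSimplex ℝ ι
  empty_mem : ∅ ∈ K
  down : ∀ F ∈ K, ∀ G, G ⊆ F → G ∈ K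
  vertex : ∀ v, {v} ∈ K
  compat : ∀ F ∈ K, ∀ m ∈ L, (∀ v ∈ F, 0 ≤ m (P v)) ∨ (∀ v ∈ F, m (P v) ≤ 0)
  /-- the coefficients -/
  nu : (ι → ℝ) → Fin n → ℝ
  nu_nonneg : ∀ x, (∀ i, 0 ≤ x i) → ∀ v, 0 ≤ nu x v
  nu_mem : ∀ x, (∀ i, 0 ≤ x i) → (univ.filter fun v => nu x v ≠ 0) ∈ K
  nu_sum : ∀ x, (∀ i, 0 ≤ x i) → ∑ v, nu x v • P v = x
  nu_unique : ∀ c : Fin n → ℝ, (∀ v, 0 ≤ c v) → (univ.filter fun v => c v ≠ 0) ∈ K →
    nu (∑ v, c v • P v) = c

/-- PROOF (h17_R43_T2.md, section 1). Put `L' = L ∪ {coordinates}`. For `x ≠ 0` in the orthant let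
`sgn x : L' → SignType` be the sign vector, and order the sign vectors by `s ≤ s'` iff `s m = 0` or
`s m = s' m` for all `m`. The cells are the finitely many sign vectors of the `x ≠ 0` in the
orthant; choose `P s` with `sgn (P s) = s`, normalised. `K` = the chains. If `ν` is supported on a
chain with maximum `s` then `sgn (∑ ν P) = s`. Existence and uniqueness of `ν` by induction on the
number of nonzero entries of `s = sgn x`: the coefficient of `s` is
`a = min {m x / m (P s) : s m ≠ 0}` and `sgn (x - a P s) < s` (or `x = a P s`). Then number the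
cells by `Fin n`. -/
theorem exists_fan (L : Set ((ι → ℝ) →ₗ[ℝ] ℝ)) (hL : L.Finite) : Nonempty (Fan L) := by
  classical
  let _ : Fintype L := hL.fintype
  let f : L ⊕ ι → (ι → ℝ) →ₗ[ℝ] ℝ := Sum.elim (fun m => m.1) fun i => LinearMap.proj i
  have hco : ∀ i, ∃ j, f j = LinearMap.proj i := fun i => ⟨Sum.inr i, rfl⟩
  have _ : Finite (SV (L ⊕ ι)) := inferInstanceAs (Finite (L ⊕ ι → SignType))
  let C : Set (SV (L ⊕ ι)) := {s | ∃ x : ι → ℝ, x ≠ 0 ∧ (∀ i, 0 ≤ x i) ∧ sg f x = s}
  have hCf : Finite C := inferInstance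
  obtain ⟨n, ⟨e⟩⟩ : ∃ n, Nonempty (Fin n ≃ C) := by
    obtain ⟨n, ⟨e⟩⟩ := Finite.exists_equiv_fin C
    exact ⟨n, ⟨e.symm⟩⟩
  -- normalised representatives
  have hrep : ∀ v : Fin n, ∃ x ∈ stdSimplex ℝ ι, sg f x = (e v).1 := by
    intro v
    obtain ⟨x, hx0, hx, hxs⟩ := (e v).2
    have hpos : 0 < ∑ i, x i := by
      obtain ⟨i, hi⟩ := Function.ne_iff.1 hx0
      exact Finset.sum_pos' (fun i _ => hx i) ⟨i, mem_univ i, lt_of_le_of_ne (hx i) (Ne.symm hi)⟩
    refine ⟨(∑ i, x i)⁻¹ • x, ⟨fun i => ?_, ?_⟩, ?_⟩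
    · exact mul_nonneg (inv_nonneg.2 hpos.le) (hx i)
    · simp only [Pi.smul_apply, smul_eq_mul, ← Finset.mul_sum]
      exact inv_mul_cancel₀ hpos.ne'
    · rw [← hxs]
      funext j
      rw [sg_apply, sg_apply, map_smul, smul_eq_mul, sign_mul, sign_pos (inv_pos.2 hpos), one_mul]
  choose P hP hPs using hrep
  have hP0 : ∀ v i, 0 ≤ P v i := fun v i => (hP v).1 i
  have hPne : ∀ v, P v ≠ 0 := by
    intro v h0
    have := (hP v).2
    rw [h0] at this
    simp at this
  have hinj : ∀ u v, sg f (P u) = sg f (P v) → u = v := by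
    intro u v h
    rw [hPs, hPs] at h
    exact e.injective (Subtype.ext h)
  have hsurj : ∀ x : ι → ℝ, x ≠ 0 → (∀ i, 0 ≤ x i) → ∃ v, sg f (P v) = sg f x := by
    intro x hx0 hx
    refine ⟨e.symm ⟨sg f x, x, hx0, hx, rfl⟩, ?_⟩
    rw [hPs, e.apply_symm_apply]
  have hPz : ∀ v, sg f (P v) ≠ sg f 0 := by
    intro v h
    obtain ⟨i, hi⟩ := Function.ne_iff.1 (hPne v)
    have h1 : sg f (P v) (Sum.inr i) = sg f 0 (Sum.inr i) := congrFun h _
    rw [sg_apply, sg_apply, map_zero, sign_zero, sign_eq_zero_iff] at h1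
    exact hi h1
  have hex : ∀ x : ι → ℝ, (∀ i, 0 ≤ x i) → ∃ c : Fin n → ℝ, (∀ v, 0 ≤ c v) ∧ Ch f P c ∧
      ∑ v, c v • P v = x := by
    intro x hx
    obtain ⟨c, h1, h2, _, h3⟩ := dec_exists hco hsurj _ x hx le_rfl
    exact ⟨c, h1, h2, h3⟩
  let nu : (ι → ℝ) → Fin n → ℝ := fun x => if h : ∀ i, 0 ≤ x i then (hex x h).choose else 0
  have hnu : ∀ x : ι → ℝ, (∀ i, 0 ≤ x i) → (∀ v, 0 ≤ nu x v) ∧ Ch f P (nu x) ∧
      ∑ v, nu x v • P v = x := by
    intro x h
    have h1 : nu x = (hex x h).choose := dif_pos h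
    rw [h1]
    exact (hex x h).choose_spec
  let K : Finset (Finset (Fin n)) := univ.filter fun F => ∀ u ∈ F, ∀ v ∈ F,
    sg f (P u) ≤ sg f (P v) ∨ sg f (P v) ≤ sg f (P u)
  have hK : ∀ F, F ∈ K ↔ ∀ u ∈ F, ∀ v ∈ F, sg f (P u) ≤ sg f (P v) ∨ sg f (P v) ≤ sg f (P u) :=
    fun F => by simp only [K, mem_filter, mem_univ, true_and]
  have hKc : ∀ c : Fin n → ℝ, (univ.filter fun v => c v ≠ 0) ∈ K ↔ Ch f P c := by
    intro c
    rw [hK]
    simp only [mem_filter, mem_univ, true_and]
    exact ⟨fun h u v hu hv => h u hu v hv, fun h u hu v hv => h u v hu hv⟩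
  refine ⟨⟨n, P, K, hP, ?_, ?_, ?_, ?_, nu, fun x hx => (hnu x hx).1, ?_,
    fun x hx => (hnu x hx).2.2, ?_⟩⟩
  · rw [hK]
    simp
  · intro F hF G hG
    rw [hK] at hF ⊢
    exact fun u hu v hv => hF u (hG hu) v (hG hv)
  · intro v
    rw [hK]
    intro u hu w hw
    rw [mem_singleton] at hu hw
    rw [hu, hw]
    exact Or.inl le_rfl
  · intro F hF m hm
    rw [hK] at hF
    by_contra hcon
    push Not at hcon
    obtain ⟨⟨u, hu, hu'⟩, v, hv, hv'⟩ := hcon
    have e1 : ∀ w, sg f (P w) (Sum.inl ⟨m, hm⟩) = SignType.sign (m (P w)) := fun w => rfl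
    have h1 := e1 u
    have h2 := e1 v
    rw [sign_neg hu'] at h1
    rw [sign_pos hv'] at h2
    rcases hF u hu v hv with h | h
    · have h3 := h (Sum.inl ⟨m, hm⟩)
      rw [h1, h2] at h3
      revert h3
      decide
    · have h3 := h (Sum.inl ⟨m, hm⟩)
      rw [h1, h2] at h3
      revert h3
      decide
  · intro x hx
    rw [hKc]
    exact (hnu x hx).2.1
  · intro c hc hcK
    rw [hKc] at hcK
    have hx : ∀ i, 0 ≤ (∑ v, c v • P v) i := by
      intro i
      rw [Finset.sum_apply]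
      exact Finset.sum_nonneg fun v _ => mul_nonneg (hc v) (hP0 v i)
    obtain ⟨h1, h2, h3⟩ := hnu _ hx
    exact dec_unique hinj hPz _ _ _ le_rfl h1 hc h2 hcK h3

/-- A function on a convex set which is Lipschitz with the constant `c` on each of finitely many
closed sets covering it is Lipschitz with the constant `c`. PROOF. For `x, y` let
`z t = x + t (y - x)` and `T = {t ∈ [0,1] | ∀ s ≤ t, dist (f (z s)) (f x) ≤ c * s * dist x y}`. `f` is
continuous on the set (finite closed cover), so `T` is a closed interval `[0, t]`. If `t < 1` choose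
`s_n` decreasing to `t` in one of the closed sets for every `s` slightly larger than `t`: each such
`s` is in one of the sets which accumulate at `t`, this set contains `z t`, so
`dist (f (z s)) (f (z t)) ≤ c * (s - t) * dist x y`. -/
theorem lipschitz_glue {E E' : Type*} [NormedAddCommGroup E] [NormedSpace ℝ E]
    [PseudoMetricSpace E'] {J : Type*} [Finite J] {X : Set E} (hX : Convex ℝ X)
    (Y : J → Set E) (hY : ∀ j, IsClosed (Y j)) (hXY : X ⊆ ⋃ j, Y j) {f : E → E'} {c : NNReal}
    (hf : ∀ j, LipschitzOnWith c f (X ∩ Y j)) : LipschitzOnWith c f X := by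
  classical
  cases nonempty_fintype J
  refine LipschitzOnWith.of_dist_le_mul fun x hx y hy => ?_
  set z : ℝ → E := fun t => AffineMap.lineMap x y t with hz
  have hzc : Continuous z := AffineMap.lineMap_continuous
  have hzX : ∀ t ∈ Set.Icc (0 : ℝ) 1, z t ∈ X := fun t ht =>
    hX.segment_subset hx hy (by rw [segment_eq_image_lineMap]; exact ⟨t, ht, rfl⟩)
  have hzd : ∀ s t : ℝ, dist (z s) (z t) = |s - t| * dist x y := fun s t => by
    rw [hz]
    simp only [dist_lineMap_lineMap, Real.dist_eq]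
  have key : ∀ s : Finset J, ∀ a b : ℝ, 0 ≤ a → a ≤ b → b ≤ 1 →
      (∀ t ∈ Set.Icc a b, ∃ j ∈ s, z t ∈ Y j) →
      dist (f (z a)) (f (z b)) ≤ c * ((b - a) * dist x y) := by
    intro s
    induction s using Finset.strongInduction with
    | H s ih =>
      intro a b ha hab hb hcov
      obtain ⟨j, hj, haj⟩ := hcov a ⟨le_rfl, hab⟩
      have hcl : IsClosed (z ⁻¹' Y j) := (hY j).preimage hzc
      have hcpt : IsCompact (Set.Icc a b ∩ z ⁻¹' Y j) := isCompact_Icc.inter_right hcl
      obtain ⟨t, ⟨⟨hat, htb⟩, htj⟩, htmax⟩ := hcpt.exists_isGreatest ⟨a, ⟨le_rfl, hab⟩, haj⟩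
      have e1 : dist (f (z a)) (f (z t)) ≤ c * ((t - a) * dist x y) := by
        have := (hf j).dist_le_mul (z a) ⟨hzX a ⟨ha, hab.trans hb⟩, haj⟩ (z t)
          ⟨hzX t ⟨ha.trans hat, htb.trans hb⟩, htj⟩
        rwa [hzd, abs_sub_comm, abs_of_nonneg (sub_nonneg.2 hat)] at this
      rcases htb.eq_or_lt with rfl | htb'
      · exact e1
      have e2 : dist (f (z t)) (f (z b)) ≤ c * ((b - t) * dist x y) := by
        refine ih (s.erase j) (Finset.erase_ssubset hj) t b (ha.trans hat) htb hb ?_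
        have hclo : IsClosed (⋃ i ∈ s.erase j, z ⁻¹' Y i) :=
          isClosed_biUnion_finset fun i _ => (hY i).preimage hzc
        have hsub : Set.Ioc t b ⊆ ⋃ i ∈ s.erase j, z ⁻¹' Y i := by
          intro u hu
          obtain ⟨i, hi, hui⟩ := hcov u ⟨hat.trans hu.1.le, hu.2⟩
          have hij : i ≠ j := by
            rintro rfl
            exact absurd (htmax ⟨⟨hat.trans hu.1.le, hu.2⟩, hui⟩) (not_le.2 hu.1)
          simp only [Set.mem_iUnion]
          exact ⟨i, Finset.mem_erase.2 ⟨hij, hi⟩, hui⟩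
        have hsub' := closure_minimal hsub hclo
        rw [closure_Ioc htb'.ne] at hsub'
        intro u hu
        have := hsub' hu
        simp only [Set.mem_iUnion] at this
        obtain ⟨i, hi, hui⟩ := this
        exact ⟨i, hi, hui⟩
      calc dist (f (z a)) (f (z b)) ≤ dist (f (z a)) (f (z t)) + dist (f (z t)) (f (z b)) :=
            dist_triangle _ _ _
        _ ≤ c * ((t - a) * dist x y) + c * ((b - t) * dist x y) := add_le_add e1 e2
        _ = c * ((b - a) * dist x y) := by ring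
  have h := key Finset.univ 0 1 le_rfl zero_le_one le_rfl (fun t ht => by
    obtain ⟨j, hj⟩ := Set.mem_iUnion.1 (hXY (hzX t ht))
    exact ⟨j, Finset.mem_univ _, hj⟩)
  rw [hz] at h
  simpa using h

namespace Fan

variable {L : Set ((ι → ℝ) →ₗ[ℝ] ℝ)} (Φ : Fan L)

/-- PROOF. `∑ c v • P v = 0` for `c` supported in `F` with positive and negative parts gives two
decompositions of one point, `nu_unique`. -/
theorem linInd {F : Finset (Fin Φ.n)} (hF : F ∈ Φ.K) :
    LinearIndependent ℝ fun v : F => Φ.P v.1 := by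
  rw [Fintype.linearIndependent_iff]
  intro g hg
  have hsup : ∀ c : Fin Φ.n → ℝ, (∀ v, v ∉ F → c v = 0) →
      (univ.filter fun v => c v ≠ 0) ∈ Φ.K := fun c hc => by
    refine Φ.down F hF _ fun v hv => ?_
    by_contra hv'
    exact (Finset.mem_filter.1 hv).2 (hc v hv')
  have hsum : ∀ φ : ℝ → ℝ, ∑ v, (if h : v ∈ F then φ (g ⟨v, h⟩) else 0) • Φ.P v =
      ∑ v : F, φ (g v) • Φ.P v.1 := fun φ => by
    rw [← Finset.sum_subset (Finset.subset_univ F) (fun v _ hv => by rw [dif_neg hv, zero_smul]),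
      ← Finset.sum_coe_sort F]
    refine Finset.sum_congr rfl fun v _ => ?_
    rw [dif_pos v.2]
  have h1 := Φ.nu_unique (fun v => if h : v ∈ F then max (g ⟨v, h⟩) 0 else 0)
    (fun v => by split_ifs <;> simp) (hsup _ fun v hv => dif_neg hv)
  have h2 := Φ.nu_unique (fun v => if h : v ∈ F then max (-g ⟨v, h⟩) 0 else 0)
    (fun v => by split_ifs <;> simp) (hsup _ fun v hv => dif_neg hv)
  rw [hsum (fun t => max t 0)] at h1
  rw [hsum (fun t => max (-t) 0)] at h2
  have h3 : ∑ v : F, max (g v) 0 • Φ.P v.1 = ∑ v : F, max (-g v) 0 • Φ.P v.1 := by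
    rw [← sub_eq_zero, ← Finset.sum_sub_distrib, ← hg]
    refine Finset.sum_congr rfl fun v _ => ?_
    rw [← sub_smul]
    congr 1
    rcases le_total 0 (g v) with h | h
    · rw [max_eq_left h, max_eq_right (by linarith), sub_zero]
    · rw [max_eq_right h, max_eq_left (by linarith), zero_sub, neg_neg]
  rw [h3, h2] at h1
  intro v
  have h4 := congrFun h1 v.1
  simp only [v.2, dif_pos] at h4
  rcases le_total 0 (g v) with h | h
  · rw [max_eq_right (by linarith : -g v ≤ 0), max_eq_left h] at h4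
    exact h4.symm
  · rw [max_eq_left (by linarith : 0 ≤ -g v), max_eq_right h] at h4
    linarith

/-- PROOF. The sum of the coordinates of both sides of `nu_sum`. -/
theorem nu_mass {x : ι → ℝ} (hx : ∀ i, 0 ≤ x i) : ∑ v, Φ.nu x v = ∑ i, x i := by
  conv_rhs => rw [← Φ.nu_sum x hx]
  simp only [Finset.sum_apply, Pi.smul_apply, smul_eq_mul]
  rw [Finset.sum_comm]
  refine Finset.sum_congr rfl fun v _ => ?_
  rw [← Finset.mul_sum, (Φ.P_mem v).2, mul_one]

theorem nu_smul {x : ι → ℝ} (hx : ∀ i, 0 ≤ x i) {c : ℝ} (hc : 0 ≤ c) :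
    Φ.nu (c • x) = c • Φ.nu x := by
  have h := Φ.nu_unique (c • Φ.nu x) (fun v => mul_nonneg hc (Φ.nu_nonneg x hx v))
    (Φ.down _ (Φ.nu_mem x hx) _ fun v hv => by
      rw [Finset.mem_filter] at hv ⊢
      refine ⟨hv.1, fun h0 => hv.2 ?_⟩
      rw [Pi.smul_apply, h0, smul_zero])
  rw [← h]
  congr 1
  conv_lhs => rw [← Φ.nu_sum x hx]
  rw [Finset.smul_sum]
  refine Finset.sum_congr rfl fun v _ => ?_
  rw [Pi.smul_apply, smul_smul, smul_eq_mul]

/-- PROOF. On the closed cone spanned by a face of `K` the coefficients are linear in `x`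
(`linInd`), so Lipschitz; finitely many closed cones cover the orthant: `lipschitz_glue`. Or: closed
graph and compactness (only continuity is claimed): if `x_k → x` then the `nu x_k` are bounded, a
subsequence has its supports in one face and converges to a decomposition of `x`, which is unique. -/
theorem continuousOn_nu : ContinuousOn Φ.nu {x | ∀ i, 0 ≤ x i} := by
  have hl : ∀ F : Φ.K, ∃ l : (ι → ℝ) →ₗ[ℝ] (Fin Φ.n → ℝ), (∀ x, ∀ v, v ∉ F.1 → l x v = 0) ∧
      ∀ c : Fin Φ.n → ℝ, (∀ v, v ∉ F.1 → c v = 0) → l (∑ v, c v • Φ.P v) = c := by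
    rintro ⟨F, hF⟩
    have hinj : LinearMap.ker (Fintype.linearCombination ℝ fun v : F => Φ.P v.1) = ⊥ := by
      rw [LinearMap.ker_eq_bot]
      have := Φ.linInd hF
      rw [linearIndependent_iff_injective_fintypeLinearCombination] at this
      exact this
    obtain ⟨g, hg⟩ := LinearMap.exists_leftInverse_of_injective _ hinj
    refine ⟨LinearMap.pi fun v => if h : v ∈ F then (LinearMap.proj ⟨v, h⟩).comp g else 0,
      ?_, ?_⟩
    · intro x v hv
      rw [LinearMap.pi_apply, dif_neg hv, LinearMap.zero_apply]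
    · intro c hc
      have e1 : ∑ v, c v • Φ.P v =
          Fintype.linearCombination ℝ (fun v : F => Φ.P v.1) (fun v => c v.1) := by
        rw [Fintype.linearCombination_apply,
          ← Finset.sum_subset (Finset.subset_univ F) (fun v _ hv => by rw [hc v hv, zero_smul]),
          ← Finset.sum_coe_sort F]
      rw [e1]
      ext v
      rw [LinearMap.pi_apply]
      by_cases hv : v ∈ F
      · rw [dif_pos hv, LinearMap.comp_apply, ← LinearMap.comp_apply g, hg, LinearMap.id_apply,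
          LinearMap.proj_apply]
      · rw [dif_neg hv, LinearMap.zero_apply, hc v hv]
  choose l hl0 hl1 using hl
  have hlc : ∀ F, Continuous (l F) := fun F => LinearMap.continuous_of_finiteDimensional _
  set Y : Φ.K → Set (ι → ℝ) := fun F =>
    {x | (∀ v, 0 ≤ l F x v) ∧ ∑ v, l F x v • Φ.P v = x} with hY
  have hYc : ∀ F, IsClosed (Y F) := by
    intro F
    have c1 : IsClosed {x : ι → ℝ | ∀ v, 0 ≤ l F x v} := by
      have : {x : ι → ℝ | ∀ v, 0 ≤ l F x v} = ⋂ v, {x | 0 ≤ l F x v} := by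
        ext x
        simp
      rw [this]
      exact isClosed_iInter fun v =>
        isClosed_le continuous_const ((continuous_apply v).comp (hlc F))
    have c2 : IsClosed {x : ι → ℝ | ∑ v, l F x v • Φ.P v = x} := by
      refine isClosed_eq (continuous_finsetSum _ fun v _ => ?_) continuous_id
      exact ((continuous_apply v).comp (hlc F)).smul continuous_const
    exact c1.inter c2
  have hYn : ∀ F, ∀ x ∈ Y F, Φ.nu x = l F x := by
    intro F x hx
    have := Φ.nu_unique (l F x) hx.1 (Φ.down _ F.2 _ fun v hv => by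
      by_contra hv'
      exact (Finset.mem_filter.1 hv).2 (hl0 F x v hv'))
    rwa [hx.2] at this
  have hcov : {x : ι → ℝ | ∀ i, 0 ≤ x i} ⊆ ⋃ F, Y F := by
    intro x hx
    have e1 := hl1 ⟨_, Φ.nu_mem x hx⟩ (Φ.nu x) (fun v hv => by
      by_contra h0
      exact hv (Finset.mem_filter.2 ⟨Finset.mem_univ _, h0⟩))
    rw [Φ.nu_sum x hx] at e1
    refine Set.mem_iUnion.2 ⟨⟨_, Φ.nu_mem x hx⟩, ?_, ?_⟩
    · rw [e1]
      exact Φ.nu_nonneg x hx
    · rw [e1]
      exact Φ.nu_sum x hx
  refine ContinuousOn.mono ?_ hcov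
  exact (locallyFinite_of_finite Y).continuousOn_iUnion hYc fun F =>
    (hlc F).continuousOn.congr (hYn F)

theorem nu_P (v : Fin Φ.n) : Φ.nu (Φ.P v) = Pi.single v 1 := by
  have h := Φ.nu_unique (Pi.single v 1) (fun w => by
    rcases eq_or_ne w v with rfl | hw
    · rw [Pi.single_eq_same]
      exact zero_le_one
    · rw [Pi.single_eq_of_ne hw]) (Φ.down _ (Φ.vertex v) _ fun w hw => by
      rw [Finset.mem_singleton]
      by_contra hw'
      exact (Finset.mem_filter.1 hw).2 (Pi.single_eq_of_ne hw' _))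
  have e : ∑ w, (Pi.single v 1 : Fin Φ.n → ℝ) w • Φ.P w = Φ.P v := by
    rw [Finset.sum_eq_single v (fun w _ hw => by rw [Pi.single_eq_of_ne hw, zero_smul])
      (fun h => absurd (Finset.mem_univ v) h), Pi.single_eq_same, one_smul]
  rwa [e] at h

end Fan

end Pool.Agent.Lib.MP_fd6ff4_co.R43
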