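import Mathlib

/-!
# Sign vectors and decompositions along chains of cells (for the fan lemma)
-/

set_option autoImplicit false

open Finset

namespace Pool.Agent.Lib.MP_fd6ff4_co.R43

/-- sign vectors, ordered by `s ≤ t` iff `s j = 0` or `s j = t j` for all `j` -/
def SV (J : Type*) := J → SignType

instance (J : Type*) : PartialOrder (SV J) where
  le s t := ∀ j, s j = 0 ∨ s j = t j
  le_refl s j := Or.inr rfl
  le_trans s t u h1 h2 j := by
    rcases h1 j with h | h
    · exact Or.inl h
    · rcases h2 j with h' | h'
      · exact Or.inl (h.trans h')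
      · exact Or.inr (h.trans h')
  le_antisymm s t h1 h2 := by
    funext j
    rcases h1 j with h | h
    · rcases h2 j with h' | h'
      · exact h.trans h'.symm
      · exact h'.symm
    · exact h

theorem SV.le_def {J : Type*} {s t : SV J} : s ≤ t ↔ ∀ j, s j = 0 ∨ s j = t j := Iff.rfl

variable {ι : Type*} {J : Type*} (f : J → (ι → ℝ) →ₗ[ℝ] ℝ)

/-- the sign vector of a point -/
noncomputable def sg (x : ι → ℝ) : SV J := fun j => SignType.sign (f j x)

variable {f}

theorem sg_apply (x : ι → ℝ) (j : J) : sg f x j = SignType.sign (f j x) := rfl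

variable {α : Type*} [Fintype α] {P : α → ι → ℝ}

/-- the sign vector of a nonnegative combination with a greatest cell in its support -/
theorem sg_sum {c : α → ℝ} (hc : ∀ v, 0 ≤ c v) {s : α} (hs : c s ≠ 0)
    (h : ∀ t, c t ≠ 0 → sg f (P t) ≤ sg f (P s)) : sg f (∑ v, c v • P v) = sg f (P s) := by
  have hs' : 0 < c s := lt_of_le_of_ne (hc s) (Ne.symm hs)
  funext j
  rw [sg_apply, sg_apply, map_sum]
  simp only [map_smul, smul_eq_mul]
  have hj : ∀ t, c t ≠ 0 → SignType.sign (f j (P t)) = 0 ∨
      SignType.sign (f j (P t)) = SignType.sign (f j (P s)) := fun t ht => h t ht j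
  rcases lt_trichotomy (f j (P s)) 0 with h0 | h0 | h0
  · have hle : ∀ t, c t * f j (P t) ≤ 0 := by
      intro t
      by_cases ht : c t = 0
      · rw [ht, zero_mul]
      · refine mul_nonpos_of_nonneg_of_nonpos (hc t) ?_
        rcases hj t ht with h1 | h1
        · rw [sign_eq_zero_iff] at h1
          exact h1.le
        · rw [sign_neg h0, sign_eq_neg_one_iff] at h1
          exact h1.le
    have hlt : ∑ t, c t * f j (P t) < 0 := by
      refine Finset.sum_neg' (fun t _ => hle t) ⟨s, mem_univ s, ?_⟩
      exact mul_neg_of_pos_of_neg hs' h0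
    rw [sign_neg hlt, sign_neg h0]
  · have hz : ∀ t, c t * f j (P t) = 0 := by
      intro t
      by_cases ht : c t = 0
      · rw [ht, zero_mul]
      · rcases hj t ht with h1 | h1
        · rw [sign_eq_zero_iff] at h1
          rw [h1, mul_zero]
        · rw [h0, sign_zero, sign_eq_zero_iff] at h1
          rw [h1, mul_zero]
    rw [Finset.sum_eq_zero fun t _ => hz t, h0]
  · have hle : ∀ t, 0 ≤ c t * f j (P t) := by
      intro t
      by_cases ht : c t = 0
      · rw [ht, zero_mul]
      · refine mul_nonneg (hc t) ?_
        rcases hj t ht with h1 | h1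
        · rw [sign_eq_zero_iff] at h1
          exact h1.ge
        · rw [sign_pos h0, sign_eq_one_iff] at h1
          exact h1.le
    have hlt : 0 < ∑ t, c t * f j (P t) := by
      refine Finset.sum_pos' (fun t _ => hle t) ⟨s, mem_univ s, ?_⟩
      exact mul_pos hs' h0
    rw [sign_pos hlt, sign_pos h0]

/-- the support of `c` is a chain of cells -/
def Ch (f : J → (ι → ℝ) →ₗ[ℝ] ℝ) (P : α → ι → ℝ) (c : α → ℝ) : Prop :=
  ∀ u v, c u ≠ 0 → c v ≠ 0 → sg f (P u) ≤ sg f (P v) ∨ sg f (P v) ≤ sg f (P u)

theorem Ch.top {c : α → ℝ} (h : Ch f P c) (hne : c ≠ 0) :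
    ∃ s, c s ≠ 0 ∧ ∀ t, c t ≠ 0 → sg f (P t) ≤ sg f (P s) := by
  classical
  have hne' : ((univ.filter fun v => c v ≠ 0).image fun v => sg f (P v)).Nonempty := by
    obtain ⟨v, hv⟩ := Function.ne_iff.1 hne
    exact ⟨_, mem_image.2 ⟨v, mem_filter.2 ⟨mem_univ _, hv⟩, rfl⟩⟩
  obtain ⟨m, hm⟩ := Finset.exists_maximal hne'
  obtain ⟨s, hs, rfl⟩ := mem_image.1 hm.prop
  have hs' : c s ≠ 0 := (mem_filter.1 hs).2
  refine ⟨s, hs', fun t ht => ?_⟩
  rcases h t s ht hs' with h1 | h1
  · exact h1
  · exact hm.le_of_ge (mem_image.2 ⟨t, mem_filter.2 ⟨mem_univ _, ht⟩, rfl⟩) h1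

omit [Fintype α] in
theorem Ch.mono {c c' : α → ℝ} (h : Ch f P c) (h' : ∀ v, c' v ≠ 0 → c v ≠ 0) : Ch f P c' :=
  fun u v hu hv => h u v (h' u hu) (h' v hv)

/-- Uniqueness of decompositions. -/
theorem dec_unique (hinj : ∀ u v, sg f (P u) = sg f (P v) → u = v)
    (hP : ∀ v, sg f (P v) ≠ sg f 0) :
    ∀ (n : ℕ) (c c' : α → ℝ), (univ.filter fun v => c v ≠ 0).card ≤ n → (∀ v, 0 ≤ c v) →
      (∀ v, 0 ≤ c' v) → Ch f P c → Ch f P c' → ∑ v, c v • P v = ∑ v, c' v • P v → c = c' := by
  classical
  have hzero : ∀ c : α → ℝ, (∀ v, 0 ≤ c v) → Ch f P c → ∑ v, c v • P v = 0 → c = 0 := by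
    intro c hc hch h0
    by_contra hne
    obtain ⟨s, hs, hmax⟩ := hch.top hne
    have h1 := sg_sum hc hs hmax
    rw [h0] at h1
    exact hP s h1.symm
  -- comparison of the leading coefficients
  have hlead : ∀ c c' : α → ℝ, (∀ v, 0 ≤ c v) → (∀ v, 0 ≤ c' v) → Ch f P c → Ch f P c' →
      ∑ v, c v • P v = ∑ v, c' v • P v → ∀ s, c' s ≠ 0 →
      (∀ t, c' t ≠ 0 → sg f (P t) ≤ sg f (P s)) → ¬ c s < c' s := by
    intro c c' hc hc' hch hch' hsum s hs hmax hlt
    let c1 : α → ℝ := Function.update c s 0
    let c1' : α → ℝ := Function.update c' s (c' s - c s)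
    have e1 : ∑ v, c1 v • P v = ∑ v, c v • P v - c s • P s := by
      rw [← Finset.add_sum_erase _ _ (mem_univ s), ← Finset.add_sum_erase _ _ (mem_univ s)]
      simp only [c1, Function.update_self, zero_smul, zero_add, add_sub_cancel_left]
      refine Finset.sum_congr rfl fun v hv => ?_
      rw [Function.update_of_ne (Finset.ne_of_mem_erase hv)]
    have e1' : ∑ v, c1' v • P v = ∑ v, c' v • P v - c s • P s := by
      rw [← Finset.add_sum_erase _ _ (mem_univ s), ← Finset.add_sum_erase univ (fun v => c' v • P v)
        (mem_univ s)]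
      have : ∑ v ∈ univ.erase s, c1' v • P v = ∑ v ∈ univ.erase s, c' v • P v := by
        refine Finset.sum_congr rfl fun v hv => ?_
        simp only [c1']
        rw [Function.update_of_ne (Finset.ne_of_mem_erase hv)]
      rw [this]
      simp only [c1', Function.update_self]
      rw [sub_smul]
      abel
    have e2 : ∑ v, c1 v • P v = ∑ v, c1' v • P v := by rw [e1, e1', hsum]
    have hc1 : ∀ v, 0 ≤ c1 v := by
      intro v
      by_cases h : v = s
      · simp [c1, h]
      · simp only [c1, Function.update_of_ne h]
        exact hc v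
    have hc1' : ∀ v, 0 ≤ c1' v := by
      intro v
      by_cases h : v = s
      · simp only [c1', h, Function.update_self]
        linarith
      · simp only [c1', Function.update_of_ne h]
        exact hc' v
    have hs1 : c1' s ≠ 0 := by
      simp only [c1', Function.update_self]
      exact (sub_pos.2 hlt).ne'
    have hsg : sg f (∑ v, c1' v • P v) = sg f (P s) := by
      refine sg_sum hc1' hs1 fun t ht => ?_
      by_cases h : t = s
      · rw [h]
      · simp only [c1', Function.update_of_ne h] at ht
        exact hmax t ht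
    have hch1 : Ch f P c1 := by
      refine hch.mono fun v hv => ?_
      by_cases h : v = s
      · exact absurd (by simp [c1, h]) hv
      · simpa only [c1, Function.update_of_ne h] using hv
    by_cases hne : c1 = 0
    · rw [← e2, hne] at hsg
      simp only [Pi.zero_apply, zero_smul, Finset.sum_const_zero] at hsg
      exact hP s hsg.symm
    · obtain ⟨t, ht, htmax⟩ := hch1.top hne
      have h3 := sg_sum hc1 ht htmax
      rw [e2, hsg] at h3
      have h4 := hinj _ _ h3
      apply ht
      rw [← h4]
      simp [c1]
  intro n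
  induction n with
  | zero =>
    intro c c' hn hc hc' hch hch' hsum
    have h0 : c = 0 := by
      funext v
      by_contra hv
      have : v ∈ univ.filter fun v => c v ≠ 0 := mem_filter.2 ⟨mem_univ _, hv⟩
      rw [Finset.card_eq_zero.1 (Nat.le_zero.1 hn)] at this
      simp at this
    have h1 : ∑ v, c' v • P v = 0 := by
      rw [← hsum, h0]
      simp
    rw [h0, hzero c' hc' hch' h1]
  | succ n ih =>
    intro c c' hn hc hc' hch hch' hsum
    by_cases hne : c = 0
    · have h1 : ∑ v, c' v • P v = 0 := by
        rw [← hsum, hne]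
        simp
      rw [hne, hzero c' hc' hch' h1]
    · have hne' : c' ≠ 0 := by
        intro h0
        apply hne
        apply hzero c hc hch
        rw [hsum, h0]
        simp
      obtain ⟨s, hs, hmax⟩ := hch.top hne
      obtain ⟨s', hs', hmax'⟩ := hch'.top hne'
      have h1 := sg_sum hc hs hmax
      have h2 := sg_sum hc' hs' hmax'
      rw [hsum, h2] at h1
      obtain rfl := hinj _ _ h1
      have hcs : c s' = c' s' := by
        rcases lt_trichotomy (c s') (c' s') with h | h | h
        · exact absurd h (hlead c c' hc hc' hch hch' hsum s' hs' hmax')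
        · exact h
        · exact absurd h (hlead c' c hc' hc hch' hch hsum.symm s' hs hmax)
      let c1 : α → ℝ := Function.update c s' 0
      let c1' : α → ℝ := Function.update c' s' 0
      have e1 : ∀ d : α → ℝ, ∑ v, (Function.update d s' 0 : α → ℝ) v • P v =
          ∑ v, d v • P v - d s' • P s' := by
        intro d
        rw [← Finset.add_sum_erase _ _ (mem_univ s'), ← Finset.add_sum_erase _ _ (mem_univ s')]
        simp only [Function.update_self, zero_smul, zero_add, add_sub_cancel_left]
        refine Finset.sum_congr rfl fun v hv => ?_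
        rw [Function.update_of_ne (Finset.ne_of_mem_erase hv)]
      have hpos : ∀ d : α → ℝ, (∀ v, 0 ≤ d v) → ∀ v, 0 ≤ (Function.update d s' 0 : α → ℝ) v := by
        intro d hd v
        by_cases h : v = s'
        · simp [h]
        · rw [Function.update_of_ne h]
          exact hd v
      have hsupp : ∀ (d : α → ℝ) v, (Function.update d s' 0 : α → ℝ) v ≠ 0 → d v ≠ 0 := by
        intro d v hv
        by_cases h : v = s'
        · exact absurd (by simp [h]) hv
        · rwa [Function.update_of_ne h] at hv
      have hcard : (univ.filter fun v => c1 v ≠ 0).card ≤ n := by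
        have hlt : (univ.filter fun v => c1 v ≠ 0).card < (univ.filter fun v => c v ≠ 0).card := by
          refine Finset.card_lt_card ⟨?_, ?_⟩
          · intro v hv
            exact mem_filter.2 ⟨mem_univ _, hsupp c v (mem_filter.1 hv).2⟩
          · intro hsub
            have := hsub (mem_filter.2 ⟨mem_univ s', hs⟩)
            apply (mem_filter.1 this).2
            simp [c1]
        omega
      have h5 : c1 = c1' := by
        refine ih c1 c1' hcard (hpos c hc) (hpos c' hc') (hch.mono (hsupp c))
          (hch'.mono (hsupp c')) ?_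
        rw [e1 c, e1 c', hsum, hcs]
      funext v
      by_cases h : v = s'
      · rw [h, hcs]
      · have := congrFun h5 v
        simp only [c1, c1'] at this
        rwa [Function.update_of_ne h, Function.update_of_ne h] at this

/-- Existence of decompositions. -/
theorem dec_exists [Fintype J] (hco : ∀ i, ∃ j, f j = LinearMap.proj i)
    (hsurj : ∀ x : ι → ℝ, x ≠ 0 → (∀ i, 0 ≤ x i) → ∃ v, sg f (P v) = sg f x) :
    ∀ (n : ℕ) (x : ι → ℝ), (∀ i, 0 ≤ x i) → (univ.filter fun j => f j x ≠ 0).card ≤ n →
      ∃ c : α → ℝ, (∀ v, 0 ≤ c v) ∧ Ch f P c ∧ (∀ v, c v ≠ 0 → sg f (P v) ≤ sg f x) ∧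
        ∑ v, c v • P v = x := by
  classical
  have hne0 : ∀ x : ι → ℝ, x ≠ 0 → ∃ j, f j x ≠ 0 := by
    intro x hx
    obtain ⟨i, hi⟩ := Function.ne_iff.1 hx
    obtain ⟨j, hj⟩ := hco i
    exact ⟨j, by rw [hj]; simpa using hi⟩
  have hzero : ∃ c : α → ℝ, (∀ v, 0 ≤ c v) ∧ Ch f P c ∧
      (∀ v, c v ≠ 0 → sg f (P v) ≤ sg f 0) ∧ ∑ v, c v • P v = 0 :=
    ⟨0, fun _ => le_rfl, fun u v hu => absurd rfl hu, fun v hv => absurd rfl hv, by simp⟩
  intro n
  induction n with
  | zero =>
    intro x hx hn
    have h0 : x = 0 := by
      by_contra hne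
      obtain ⟨j, hj⟩ := hne0 x hne
      have : j ∈ univ.filter fun j => f j x ≠ 0 := mem_filter.2 ⟨mem_univ _, hj⟩
      rw [Finset.card_eq_zero.1 (Nat.le_zero.1 hn)] at this
      simp at this
    rw [h0]
    exact hzero
  | succ n ih =>
    intro x hx hn
    by_cases hne : x = 0
    · rw [hne]
      exact hzero
    · obtain ⟨s, hs⟩ := hsurj x hne hx
      have hsj : ∀ j, SignType.sign (f j (P s)) = SignType.sign (f j x) := fun j => congrFun hs j
      have hnz : ∀ j, f j x ≠ 0 → f j (P s) ≠ 0 := by
        intro j hj h0
        have := hsj j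
        rw [h0, sign_zero] at this
        exact hj (sign_eq_zero_iff.1 this.symm)
      have hratio : ∀ j, f j x ≠ 0 → 0 < f j x / f j (P s) := by
        intro j hj
        rcases lt_or_gt_of_ne hj with h | h
        · have h2 := hsj j
          rw [sign_neg h, sign_eq_neg_one_iff] at h2
          exact div_pos_of_neg_of_neg h h2
        · have h2 := hsj j
          rw [sign_pos h, sign_eq_one_iff] at h2
          exact div_pos h h2
      obtain ⟨j0', hj0'⟩ := hne0 x hne
      obtain ⟨j0, hj0, hmin⟩ := Finset.exists_min_image (univ.filter fun j => f j x ≠ 0)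
        (fun j => f j x / f j (P s)) ⟨j0', mem_filter.2 ⟨mem_univ _, hj0'⟩⟩
      replace hj0 : f j0 x ≠ 0 := (mem_filter.1 hj0).2
      obtain ⟨a, ha⟩ : ∃ a, a = f j0 x / f j0 (P s) := ⟨_, rfl⟩
      have hapos : 0 < a := by rw [ha]; exact hratio j0 hj0
      have hale : ∀ j, f j x ≠ 0 → a ≤ f j x / f j (P s) := by
        intro j hj
        rw [ha]
        exact hmin j (mem_filter.2 ⟨mem_univ _, hj⟩)
      obtain ⟨y, hy⟩ : ∃ y, y = x - a • P s := ⟨_, rfl⟩
      have hfy : ∀ j, f j y = f j x - a * f j (P s) := by
        intro j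
        rw [hy, map_sub, map_smul, smul_eq_mul]
      -- signs of `y`
      have hy1 : ∀ j, f j x = 0 → f j y = 0 := by
        intro j hj
        have h2 := hsj j
        rw [hj, sign_zero, sign_eq_zero_iff] at h2
        rw [hfy, hj, h2]
        ring
      have hy2 : ∀ j, 0 < f j x → 0 ≤ f j y := by
        intro j hj
        have h2 := hsj j
        rw [sign_pos hj, sign_eq_one_iff] at h2
        have h3 := hale j hj.ne'
        rw [le_div_iff₀ h2] at h3
        rw [hfy]
        linarith
      have hy3 : ∀ j, f j x < 0 → f j y ≤ 0 := by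
        intro j hj
        have h2 := hsj j
        rw [sign_neg hj, sign_eq_neg_one_iff] at h2
        have h3 := hale j hj.ne
        rw [le_div_iff_of_neg h2] at h3
        rw [hfy]
        linarith
      have hyle : sg f y ≤ sg f x := by
        intro j
        rw [sg_apply, sg_apply]
        rcases lt_trichotomy (f j x) 0 with h | h | h
        · rcases (hy3 j h).lt_or_eq with h' | h'
          · right
            rw [sign_neg h, sign_neg h']
          · left
            rw [h', sign_zero]
        · left
          rw [hy1 j h, sign_zero]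
        · rcases (hy2 j h).lt_or_eq with h' | h'
          · right
            rw [sign_pos h, sign_pos h']
          · left
            rw [← h', sign_zero]
      have hypos : ∀ i, 0 ≤ y i := by
        intro i
        obtain ⟨j, hj⟩ := hco i
        have e1 : ∀ z : ι → ℝ, f j z = z i := fun z => by rw [hj]; rfl
        rcases (hx i).lt_or_eq with h | h
        · have h2 := hy2 j (by rw [e1]; exact h)
          rwa [e1] at h2
        · have h2 := hy1 j (by rw [e1]; exact h.symm)
          rw [e1] at h2
          exact h2.ge
      have hycard : (univ.filter fun j => f j y ≠ 0).card ≤ n := by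
        have hlt : (univ.filter fun j => f j y ≠ 0).card <
            (univ.filter fun j => f j x ≠ 0).card := by
          refine Finset.card_lt_card ⟨?_, ?_⟩
          · intro j hj
            refine mem_filter.2 ⟨mem_univ _, fun h0 => (mem_filter.1 hj).2 (hy1 j h0)⟩
          · intro hsub
            have := hsub (mem_filter.2 ⟨mem_univ j0, hj0⟩)
            apply (mem_filter.1 this).2
            rw [hfy, ha, div_mul_cancel₀ _ (hnz j0 hj0), sub_self]
        omega
      obtain ⟨c, hc, hch, hcle, hcsum⟩ := ih y hypos hycard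
      have hupd : ∀ v, v ≠ s → (c + Pi.single s a : α → ℝ) v = c v := by
        intro v hv
        rw [Pi.add_apply, Pi.single_eq_of_ne hv, add_zero]
      have hle' : ∀ v, (c + Pi.single s a : α → ℝ) v ≠ 0 → sg f (P v) ≤ sg f x := by
        intro v hv
        by_cases h : v = s
        · rw [h, hs]
        · rw [hupd v h] at hv
          exact (hcle v hv).trans hyle
      refine ⟨c + Pi.single s a, ?_, ?_, hle', ?_⟩
      · intro v
        by_cases h : v = s
        · rw [h, Pi.add_apply, Pi.single_eq_same]
          have := hc s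
          linarith
        · rw [hupd v h]
          exact hc v
      · intro u v hu hv
        by_cases h1 : u = s
        · right
          rw [h1, hs]
          exact hle' v hv
        · by_cases h2 : v = s
          · left
            rw [h2, hs]
            exact hle' u hu
          · rw [hupd u h1] at hu
            rw [hupd v h2] at hv
            exact hch u v hu hv
      · simp only [Pi.add_apply, add_smul, Finset.sum_add_distrib, hcsum]
        have : ∑ v, (Pi.single s a : α → ℝ) v • P v = a • P s := by
          rw [Finset.sum_eq_single s]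
          · rw [Pi.single_eq_same]
          · intro v _ hv
            rw [Pi.single_eq_of_ne hv, zero_smul]
          · intro h
            exact absurd (mem_univ s) h
        rw [this, hy]
        abel

end Pool.Agent.Lib.MP_fd6ff4_co.R43
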