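import Mathlib
import Pool.Agent.Lib.MP_fd6ff4_co.R43.T1.Defs

/-!
# Section systems

The output of T1 and the input of T2.
-/

set_option autoImplicit false

open Finset

namespace Pool.Agent.Lib.MP_fd6ff4_co.R43

/-- the sum of the coordinates -/
def tot (l : Fin 4 → ℝ) : ℝ := ∑ i, l i

/-- the truncation `min (l i) h` -/
def tr (l : Fin 4 → ℝ) (h : ℝ) : Fin 4 → ℝ := fun i => min (l i) h

/-- A section system for the words in `W`: homogeneous piecewise linear maps `S f` from the cone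
`ℝ^4_{≥0}` to `ℝ^3` (with the maximum norm) such that
* (S2) two sections are apart where a differing colour is positive,
* the values are positive,
* (S3) truncation: `S f - S g` does not change when `l` is truncated at the height `h`, if all the
  coordinates with `f i ≠ g i` are small. -/
structure SecSys (W : Finset Word) where
  S : Word → (Fin 4 → ℝ) → Fin 3 → ℝ
  pl : ∀ f ∈ W, ∀ j, IsPL (fun l => S f l j)
  c : ℝ
  κ : ℝ
  δ : ℝ
  c_pos : 0 < c
  κ_pos : 0 < κ
  δ_pos : 0 < δ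
  sep : ∀ f ∈ W, ∀ g ∈ W, ∀ l, 0 ≤ l → ∀ i, f i ≠ g i → c * l i ≤ ‖S f l - S g l‖
  pos : ∀ f ∈ W, ∀ l, 0 ≤ l → ∀ j, κ * tot l ≤ S f l j
  trunc : ∀ f ∈ W, ∀ g ∈ W, ∀ l, 0 ≤ l → ∀ h, 0 ≤ h →
    (∀ i, f i ≠ g i → l i ≤ δ * tot (tr l h)) →
    S f l - S g l = S f (tr l h) - S g (tr l h)

end Pool.Agent.Lib.MP_fd6ff4_co.R43
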