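import Mathlib
import Pool.Agent.Lib.MP_fd6ff4_co.R43.T1.ToSys
import Pool.Agent.Lib.MP_fd6ff4_co.R43.T2.Main2
import Pool.Agent.Lib.MP_fd6ff4_co.R43.Alg.End

/-!
# The two halves of the counterexample

`exists_tri` (topology, parts T1 and T2) and `not_generated` (algebra, part T3).
-/

set_option autoImplicit false

open Finset

namespace Pool.Agent.Lib.MP_fd6ff4_co.R43

/-- T1 and T2: there is a vertex-induced topological triangulation of the 6-simplex which contains
the rainbow complex. (The last statement says that the dimension of a face is at most the dimension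
of its carrier; it holds in every topological triangulation, but here it comes out of the
construction: the cone over the face `G = α ∪ ρ` is mapped by a piecewise linear injective map, and
`ρ` spans a linear subspace of dimension `#ρ` of the coordinate space of the carrier, on which the
`#α` independent functionals `l i - l j`, `i, j ∈ α`, and `± (y - A l)_j - η |l|` vanish.) -/
theorem exists_tri : ∃ (n : ℕ) (Γ : Finset (Finset (Fin n))) (σ : Fin n → Finset (Fin 7))
    (v : Fin 4 → Fin 3 → Fin n), TopTri Γ σ ∧ HasR43 Γ σ v ∧ ∀ G ∈ Γ, #G ≤ #(car σ G) := by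
  obtain ⟨Sy⟩ := exists_secSys
  exact tri_of_secSys Sy

/-- T3: in characteristic 3 the local face module of such a triangulation is not generated in
degrees at most 3. -/
theorem not_generated (k : Type*) [Field k] [CharP k 3] {n : ℕ} {Γ : Finset (Finset (Fin n))}
    {σ : Fin n → Finset (Fin 7)} {v : Fin 4 → Fin 3 → Fin n} (h : TopTri Γ σ)
    (hv : HasR43 Γ σ v) (hdim : ∀ G ∈ Γ, #G ≤ #(car σ G)) :
    ¬ GeneratedLE (genA k σ) σ Γ 3 :=
  not_generated_tri k h hv hdim

/-- The negation of Q1: in characteristic 3 there is, for `d = 7`, a vertex-induced topological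
triangulation whose local face module is not generated in degrees at most `7 / 2 = 3`. -/
theorem final (k : Type*) [Field k] [CharP k 3] : ∃ (n : ℕ) (Γ : Finset (Finset (Fin n)))
    (σ : Fin n → Finset (Fin 7)), TopTri Γ σ ∧ ¬ GeneratedLE (genA k σ) σ Γ (7 / 2) := by
  obtain ⟨n, Γ, σ, v, h, hv, hd⟩ := exists_tri
  exact ⟨n, Γ, σ, h, not_generated k h hv hd⟩

end Pool.Agent.Lib.MP_fd6ff4_co.R43
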